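import Pool.Agent.Helper33.MEI.FullT
import Pool.Agent.Helper31.SR.MilM

/-!
# The whole theorem on Meissner bodies from a top range and the core statement of track B

`pre` is the statement of the hand-in `MP_8bdc10_gt.Meissner`, from the top range
`Top 0.6042 0.61135` and the core statement on the sums at least `T1`.
-/

set_option autoImplicit false

namespace Pool.Agent.Helper36.MEI.MeissnerPre

open MeasureTheory Helper78.MEI
open Helper13.PLM (StX stX StY SumB OneB)
open Pool.Agent.Helper31.SR.MilG Pool.Agent.Helper31.SR.MilJ Pool.Agent.Helper31.SR.FinT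

theorem pre {κ T1 : ℝ} (top : Top 0.6042 0.61135) (hκ : 0.00001 ≤ κ) (hT1 : T1 ≤ 0.00742)
    (core : CoreP (fun S => StY 0.0204 0.02 0.0172 S ∧ T1 ≤ ∑ i, S i) 0.0204 κ) :
    ∀ K : Set (EuclideanSpace ℝ (Fin 3)), IsCompact K → Convex ℝ K →
    (∀ u : EuclideanSpace ℝ (Fin 3), ‖u‖ = 1 →
      sSup ((fun x => inner ℝ x u) '' K) - sInf ((fun x => inner ℝ x u) '' K) = 1) →
    ENNReal.ofReal (Real.pi * (2 / 3 - Real.sqrt 3 / 4 * Real.arccos (1 / 3))) ≤ volume K ∧
      (volume K = ENNReal.ofReal (Real.pi * (2 / 3 - Real.sqrt 3 / 4 * Real.arccos (1 / 3))) ↔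
        ∃ a : Fin 4 → EuclideanSpace ℝ (Fin 3), (∀ i j, i ≠ j → dist (a i) (a j) = 1) ∧
          ∃ c : Fin 3 → Bool, K = Helper96.MEI.MB a c) :=
  Pool.Agent.Helper33.MEI.FullT.meissner_of top
    (Pool.Agent.Helper31.SR.MilM.winM_61135 hκ hT1 core)

/-- the same from a top range in one piece and the near range `Win 0.61135` -/
theorem pre_win (top : Top 0.6042 0.61135) (win : Win 0.61135) :
    ∀ K : Set (EuclideanSpace ℝ (Fin 3)), IsCompact K → Convex ℝ K →
    (∀ u : EuclideanSpace ℝ (Fin 3), ‖u‖ = 1 →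
      sSup ((fun x => inner ℝ x u) '' K) - sInf ((fun x => inner ℝ x u) '' K) = 1) →
    ENNReal.ofReal (Real.pi * (2 / 3 - Real.sqrt 3 / 4 * Real.arccos (1 / 3))) ≤ volume K ∧
      (volume K = ENNReal.ofReal (Real.pi * (2 / 3 - Real.sqrt 3 / 4 * Real.arccos (1 / 3))) ↔
        ∃ a : Fin 4 → EuclideanSpace ℝ (Fin 3), (∀ i j, i ≠ j → dist (a i) (a j) = 1) ∧
          ∃ c : Fin 3 → Bool, K = Helper96.MEI.MB a c) :=
  Pool.Agent.Helper33.MEI.FullT.meissner_of top win

end Pool.Agent.Helper36.MEI.MeissnerPre
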