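import Pool.Agent.Helper93.MEI.Bar

/-!
# Project MEI (M2): the tips of the face cells

`p` in the face cell of vertex `0`, near vertex `1`; `q` the antipode of `p` (`‖p - q‖ = 1`).
With `A m = ⟪a 1 - a m, p - q⟫` one has the exact identity
`Q_1(q) = ‖p - a 1‖² + 2 (b_2(p) A 2 + b_3(p) A 3 + b_0(p) A 0)`,
and the placement inequality `b_1 - b_0 ≤ 1` at `p` gives the tip inequality.
-/

namespace Helper36.MEI

open Set Metric MeasureTheory Helper80.CW Helper14.CW Helper93.MEI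
open scoped RealInnerProductSpace Real

variable {a : Fin 4 → E3}

theorem tip_id (h : Gram4 (al a)) {p q : E3} (hpq : ‖p - q‖ = 1) :
    Qv a 1 q = ‖p - a 1‖ ^ 2 + 2 * (bar a 2 p * ⟪p - q, a 1 - a 2⟫ +
      bar a 3 p * ⟪p - q, a 1 - a 3⟫ + bar a 0 p * ⟪p - q, a 1 - a 0⟫) := by
  have e1 := norm_sub_sq_bar h p q
  rw [hpq] at e1
  have e2 := norm_sub_sq_bar h q (a 1)
  have e3 := norm_sub_sq_bar h p (a 1)
  have s1 := bar_sum h p
  have s2 := bar_sum h q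
  have k0 := bar_vertex_ne h (i := 0) (j := 1) (by decide)
  have k1 := bar_vertex_self h 1
  have k2 := bar_vertex_ne h (i := 2) (j := 1) (by decide)
  have k3 := bar_vertex_ne h (i := 3) (j := 1) (by decide)
  rw [k0, k1, k2, k3] at e2 e3
  rw [Qv, e2, e3, inner_edge, inner_edge, inner_edge]
  have p1 : bar a 1 p = 1 - bar a 0 p - bar a 2 p - bar a 3 p := by linarith
  have q1 : bar a 1 q = 1 - bar a 0 q - bar a 2 q - bar a 3 q := by linarith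
  rw [p1, q1] at e1 ⊢
  linear_combination (-1 : ℝ) * e1

/-- tip inequality -/
theorem tip (h : Gram4 (al a)) {p q : E3} (hpq : ‖p - q‖ = 1)
    (hpl : bar a 1 p - bar a 0 p ≤ 1) (hk : 0 ≤ bar a 2 p) (hl : 0 ≤ bar a 3 p)
    (hA0 : 0 ≤ ⟪p - q, a 1 - a 0⟫) {c : ℝ}
    (h2 : c ≤ ⟪p - q, a 1 - a 2⟫ - ⟪p - q, a 1 - a 0⟫ / 2)
    (h3 : c ≤ ⟪p - q, a 1 - a 3⟫ - ⟪p - q, a 1 - a 0⟫ / 2) :
    ‖p - a 1‖ ^ 2 + 2 * c * (bar a 2 p + bar a 3 p) ≤ Qv a 1 q := by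
  rw [tip_id h hpq]
  have s1 := bar_sum h p
  have t : 0 ≤ bar a 2 p + bar a 3 p + 2 * bar a 0 p := by linarith
  nlinarith [mul_nonneg hk (sub_nonneg.mpr h2), mul_nonneg hl (sub_nonneg.mpr h3),
    mul_nonneg hA0 t]

/-- `A m = ⟪p - q, a 1 - a m⟫` in barycentric coordinates -/
theorem tip_A {p q : E3} (m : Fin 4) : ⟪p - q, a 1 - a m⟫ =
    1 / 2 * ((bar a 1 p - bar a m p) - (bar a 1 q - bar a m q)) := inner_edge p q

/-- the tip inequality with `c` expressed by the coordinates of `q` (the coordinates of `p`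
enter only through `t = b_2(p) + b_3(p)`). -/
theorem tip_bar (h : Gram4 (al a)) {p q : E3} (hpq : ‖p - q‖ = 1)
    (hpl : bar a 1 p - bar a 0 p ≤ 1) (hk : 0 ≤ bar a 2 p) (hl : 0 ≤ bar a 3 p)
    (_h0 : bar a 0 p ≤ 0)
    (hA0 : 0 ≤ (bar a 1 p - bar a 0 p) - (bar a 1 q - bar a 0 q)) {g : ℝ}
    (h2 : g ≤ 1 / 2 * (bar a 2 q + bar a 3 q) + bar a 2 q)
    (h3 : g ≤ 1 / 2 * (bar a 2 q + bar a 3 q) + bar a 3 q) :
    ‖p - a 1‖ ^ 2 + (g - 2 * (bar a 2 p + bar a 3 p)) * (bar a 2 p + bar a 3 p) ≤ Qv a 1 q := by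
  have s1 := bar_sum h p
  have s2 := bar_sum h q
  have key := tip h hpq hpl hk hl (c := (g - 2 * (bar a 2 p + bar a 3 p)) / 2)
    (by rw [tip_A]; linarith) (by rw [tip_A, tip_A]; linarith) (by rw [tip_A, tip_A]; linarith)
  linarith

end Helper36.MEI
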