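import Pool.Agent.Helper82.M2.Win
import Pool.Agent.Helper31.SR.EndA

/-!
# Project MEI (M2): the statement of the hand-in, in Mathlib terms, from the window theorem

`Full R` is the statement of the hand-in with the circumradius `R`; `full_of_win` obtains it from
`∀ K, IsCompact K → Convex ℝ K → Width1 K → (¬ ∃ x, K ⊆ closedBall x R) → EqM K`.
-/

set_option autoImplicit false

namespace Pool.Agent.Helper36.MEI

open MeasureTheory Metric

/-- the statement of the hand-in -/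
def Full (R : ℝ) : Prop :=
  ∀ K : Set (EuclideanSpace ℝ (Fin 3)), IsCompact K → Convex ℝ K →
    (∀ u : EuclideanSpace ℝ (Fin 3), ‖u‖ = 1 →
      sSup ((fun x => inner ℝ x u) '' K) - sInf ((fun x => inner ℝ x u) '' K) = 1) →
    (((∃ x, K ⊆ closedBall x 0.6042) ∨ ¬ ∃ x, K ⊆ closedBall x R) →
      ENNReal.ofReal (Real.pi * (2 / 3 - Real.sqrt 3 / 4 * Real.arccos (1 / 3))) ≤ volume K ∧
      (volume K = ENNReal.ofReal (Real.pi * (2 / 3 - Real.sqrt 3 / 4 * Real.arccos (1 / 3))) ↔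
        ∃ a : Fin 4 → EuclideanSpace ℝ (Fin 3), (∀ i j, i ≠ j → dist (a i) (a j) = 1) ∧
        ∃ c : Fin 3 → Bool, K = Helper96.MEI.MB a c)) ∧
    (volume K ≤ ENNReal.ofReal (Real.pi * (2 / 3 - Real.sqrt 3 / 4 * Real.arccos (1 / 3))) →
      (∀ x : EuclideanSpace ℝ (Fin 3), ¬ K ⊆ closedBall x 0.6042) ∧
      ∃ p : Fin 4 → EuclideanSpace ℝ (Fin 3), (∀ i, p i ∈ K) ∧
        (∑ i, ∑ j, (if i < j then 1 - dist (p i) (p j) ^ 2 else 0) ≤ 0.1729) ∧
        ∀ i j, i ≠ j → 0.9094 < dist (p i) (p j))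

theorem full_of_win {R : ℝ}
    (h : ∀ K : Set (EuclideanSpace ℝ (Fin 3)), IsCompact K → Convex ℝ K → Helper80.CW.Width1 K →
      (¬ ∃ x, K ⊆ closedBall x R) → Pool.Agent.Helper31.SR.EndA.EqM K) : Full R := by
  intro K hK hc hw
  have hw' : Helper80.CW.Width1 K := hw
  refine ⟨fun h1 => ?_, fun h1 => Helper82.M2.near6042 hK hc hw' h1⟩
  rcases h1 with ⟨x, hx⟩ | h1
  · obtain ⟨h2, h3⟩ := Helper82.M2.concl_far2 hK hc hw' hx
    exact ⟨h2.le, h3⟩
  · exact h K hK hc hw' h1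

end Pool.Agent.Helper36.MEI
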