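import Pool.Agent.Helper31.SR.FinT

/-!
# Project MEI: the statement of the hand-in `CircumradiusWindow` from finished ranges

`Low r` = bodies in a ball of radius `r` have larger volume than the Meissner bodies; `low_6042`,
`Low.top`; `FullR r r' X d` = the statement of the hand-in; `full_top`: from `Low r` and `Win r'`.
-/

set_option autoImplicit false

namespace Pool.Agent.Helper36.MEI.WinTop

open Set Metric Finset MeasureTheory Filter Helper80.CW Helper82.CW Helper14.CW Helper93.MEI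
open Helper82.M2 Pool.Agent.Helper31.SR.MilG Pool.Agent.Helper31.SR.EndA
open Pool.Agent.Helper31.SR.FinT
open scoped RealInnerProductSpace Topology

/-- bodies in a ball of radius `r` have larger volume -/
def Low (r : ℝ) : Prop := ∀ K : Set E3, IsCompact K → Convex ℝ K → Width1 K →
  (∃ x, K ⊆ closedBall x r) → ENNReal.ofReal Helper96.MEI.VMe < volume K

theorem low_6042 : Low 0.6042 := by
  rintro K hK hc hw ⟨x, hx⟩
  exact (concl_far2 hK hc hw hx).1

theorem Low.top {r0 r : ℝ} (h : Low r0) (hT : Top r0 r) : Low r := by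
  intro K hK hc hw h1
  by_cases h2 : ∃ x, K ⊆ closedBall x r0
  · exact h K hK hc hw h2
  · exact hT K hK hc hw h2 h1

/-- the statement of the hand-in: `r < r'` the two radii, `X` and `d` the numbers of the near
part -/
def FullR (r r' X d : ℝ) : Prop :=
  ∀ K : Set (EuclideanSpace ℝ (Fin 3)), IsCompact K → Convex ℝ K →
    (∀ u : EuclideanSpace ℝ (Fin 3), ‖u‖ = 1 →
      sSup ((fun x => inner ℝ x u) '' K) - sInf ((fun x => inner ℝ x u) '' K) = 1) →
    (((∃ x, K ⊆ closedBall x r) ∨ ¬ ∃ x, K ⊆ closedBall x r') →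
      ENNReal.ofReal (Real.pi * (2 / 3 - Real.sqrt 3 / 4 * Real.arccos (1 / 3))) ≤ volume K ∧
      (volume K = ENNReal.ofReal (Real.pi * (2 / 3 - Real.sqrt 3 / 4 * Real.arccos (1 / 3))) ↔
        ∃ a : Fin 4 → EuclideanSpace ℝ (Fin 3), (∀ i j, i ≠ j → dist (a i) (a j) = 1) ∧
        ∃ c : Fin 3 → Bool, K = Helper96.MEI.MB a c)) ∧
    (volume K ≤ ENNReal.ofReal (Real.pi * (2 / 3 - Real.sqrt 3 / 4 * Real.arccos (1 / 3))) →
      (∀ x : EuclideanSpace ℝ (Fin 3), ¬ K ⊆ closedBall x r) ∧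
      ∃ p : Fin 4 → EuclideanSpace ℝ (Fin 3), (∀ i, p i ∈ K) ∧
        (∑ i, ∑ j, (if i < j then 1 - dist (p i) (p j) ^ 2 else 0) ≤ X) ∧
        ∀ i j, i ≠ j → d < dist (p i) (p j))

theorem sum_lt_of_sum_ne {f : Fin 4 → Fin 4 → ℝ} (hf : ∀ i j, f i j = f j i) :
    ∑ i, ∑ j, (if i = j then 0 else f i j) = 2 * ∑ i, ∑ j, (if i < j then f i j else 0) := by
  have h1 : ∀ i j : Fin 4, (if i = j then 0 else f i j) =
      (if i < j then f i j else 0) + (if j < i then f j i else 0) := by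
    intro i j
    rcases lt_trichotomy i j with hij | hij | hij
    · rw [if_neg hij.ne, if_pos hij, if_neg (not_lt.2 hij.le), add_zero]
    · rw [if_pos hij, if_neg (not_lt.2 hij.ge), if_neg (not_lt.2 hij.le), add_zero]
    · rw [if_neg hij.ne', if_neg (not_lt.2 hij.le), if_pos hij, zero_add, hf]
  simp only [h1, Finset.sum_add_distrib]
  rw [Finset.sum_comm (f := fun i j => if j < i then f j i else 0)]
  ring

/-- **the near part** for the radius `r` -/
theorem near_of_low {r X d : ℝ} (h : Low r) (hr : 0.6026 ≤ r) (hX : 0 ≤ X) (hX1 : X ≤ 1)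
    (hrX : 1 / 4 + 1 / (4 * (2 + X)) ≤ r ^ 2) (hdX : d ^ 2 < 1 - X) {K : Set E3}
    (hcompact : IsCompact K) (hconvex : Convex ℝ K) (hw : Width1 K)
    (hvol : volume K ≤ ENNReal.ofReal Helper96.MEI.VMe) :
    (∀ x : E3, ¬ K ⊆ closedBall x r) ∧
    ∃ p : Fin 4 → E3, (∀ i, p i ∈ K) ∧
      (∑ i, ∑ j, (if i < j then 1 - dist (p i) (p j) ^ 2 else 0) ≤ X) ∧
      ∀ i j, i ≠ j → d < dist (p i) (p j) := by
  have hno : ∀ x : E3, ¬ K ⊆ closedBall x r := fun x hx =>
    absurd hvol (not_le.2 (h K hcompact hconvex hw ⟨x, hx⟩))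
  refine ⟨hno, ?_⟩
  obtain ⟨p, hp, h⟩ := near_sum_R hcompact hw (R := r) (X := X) hr hX hX1 hrX
    (fun ⟨x, hx⟩ => hno x hx)
  have hle : ∀ i j, 0 ≤ 1 - ‖p i - p j‖ ^ 2 := by
    intro i j
    have h1 := Helper82.CW.diam_le hcompact hw _ (hp i) _ (hp j)
    rw [dist_eq_norm] at h1
    have h2 := norm_nonneg (p i - p j)
    nlinarith
  have hs : ∑ i, ∑ j, (if i < j then 1 - dist (p i) (p j) ^ 2 else 0) ≤ X := by
    simp only [dist_eq_norm]
    rw [sum_lt_of_sum_ne (f := fun i j => 1 - ‖p i - p j‖ ^ 2)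
      (fun i j => by rw [norm_sub_rev])] at h
    linarith
  refine ⟨p, hp, hs, ?_⟩
  have key : ∀ i j, i < j → 1 - dist (p i) (p j) ^ 2 ≤ X := by
    intro i j hij
    refine le_trans ?_ hs
    have hn : ∀ a b : Fin 4, 0 ≤ (if a < b then 1 - dist (p a) (p b) ^ 2 else 0) := by
      intro a b
      split_ifs
      · rw [dist_eq_norm]; exact hle a b
      · exact le_rfl
    have h1 := Finset.single_le_sum (f := fun b => if i < b then 1 - dist (p i) (p b) ^ 2 else 0)
      (fun b _ => hn i b) (Finset.mem_univ j)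
    have h2 := Finset.single_le_sum
      (f := fun a => ∑ b, (if a < b then 1 - dist (p a) (p b) ^ 2 else 0))
      (fun a _ => Finset.sum_nonneg fun b _ => hn a b) (Finset.mem_univ i)
    simp only [hij, if_true] at h1
    exact h1.trans h2
  have key2 : ∀ i j, i < j → d < dist (p i) (p j) := by
    intro i j hij
    have h1 := key i j hij
    exact lt_of_pow_lt_pow_left₀ 2 dist_nonneg (by linarith)
  intro i j hij
  rcases lt_or_gt_of_ne hij with h1 | h1
  · exact key2 i j h1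
  · rw [dist_comm]; exact key2 j i h1

/-- **the statement of the hand-in from the finished ranges** -/
theorem full_top {r r' X d : ℝ} (h : Low r) (hW : Win r') (hr : 0.6026 ≤ r) (hX : 0 ≤ X)
    (hX1 : X ≤ 1) (hrX : 1 / 4 + 1 / (4 * (2 + X)) ≤ r ^ 2) (hdX : d ^ 2 < 1 - X) :
    FullR r r' X d := by
  intro K hK hc hw
  have hw' : Width1 K := hw
  refine ⟨fun h1 => ?_, fun h1 => near_of_low h hr hX hX1 hrX hdX hK hc hw' h1⟩
  rcases h1 with h1 | h1
  · exact eqM_of_lt hK hc hw' (h K hK hc hw' h1)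
  · exact hW K hK hc hw' h1

/-- `Top 0.6042 r`, `Top r' R1`, `Win R1` -/
theorem full_top2 {r r' R1 X d : ℝ} (h : Top 0.6042 r) (h' : Top r' R1) (hW : Win R1)
    (hr : 0.6026 ≤ r) (hX : 0 ≤ X) (hX1 : X ≤ 1) (hrX : 1 / 4 + 1 / (4 * (2 + X)) ≤ r ^ 2)
    (hdX : d ^ 2 < 1 - X) : FullR r r' X d :=
  full_top (low_6042.top h) (Pool.Agent.Helper31.SR.FinT.Win.top hW h') hr hX hX1 hrX hdX

/-- `Top 0.6042 r`, `Win r'` -/
theorem full_low {r r' X d : ℝ} (h : Top 0.6042 r) (hW : Win r')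
    (hr : 0.6026 ≤ r) (hX : 0 ≤ X) (hX1 : X ≤ 1) (hrX : 1 / 4 + 1 / (4 * (2 + X)) ≤ r ^ 2)
    (hdX : d ^ 2 < 1 - X) : FullR r r' X d :=
  full_top (low_6042.top h) hW hr hX hX1 hrX hdX

/-- `Top r' R1`, `Win R1` -/
theorem full_up {r' R1 : ℝ} (h' : Top r' R1) (hW : Win R1) : FullR 0.6042 r' 0.1729 0.9094 :=
  full_top low_6042 (Pool.Agent.Helper31.SR.FinT.Win.top hW h') (by norm_num) (by norm_num)
    (by norm_num) (by norm_num) (by norm_num)

end Pool.Agent.Helper36.MEI.WinTop
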